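import Pool.Agent.helper63.TI.SpecA
import Pool.Agent.helper27.AQ.LDE

/-! Row ta:DTU (MP_3703a7_ag): determinants on the eigenspaces of `Z`. -/

set_option autoImplicit false

namespace Pool.Agent.TI

open Polynomial NumberField Pool.Agent.GJ Pool.Agent.TK Pool.Agent.TQ Pool.Agent.TFQ Pool.Agent.TD Pool.Agent.AQ
open Pool.Agent.FJ (VT Om chiO IsFrobO rf rs)
open scoped TensorProduct

noncomputable section

theorem DTU_bs_pow {q : ℕ} [Fact q.Prime] {V : Type} [AddCommGroup V] [Module ℚ_[q] V] (Z : Module.End ℚ_[q] V) (j : ℕ) :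
    (bs Z : Module.End (PadicAlgCl q) (PadicAlgCl q ⊗[ℚ_[q]] V)) ^ j = bs (Z ^ j) := by
  induction j with
  | zero =>
    rw [pow_zero, pow_zero]
    exact (LinearMap.baseChange_id).symm
  | succ j ih =>
    rw [pow_succ, pow_succ, ih]
    exact (LinearMap.baseChange_comp _ _).symm

/-- polynomials in `Z` on an eigenvector of `1 ⊗ Z` -/
theorem DTU_aeval {q : ℕ} [Fact q.Prime] {V : Type} [AddCommGroup V] [Module ℚ_[q] V] (Z : Module.End ℚ_[q] V)
    (ζ : PadicAlgCl q) (r : ℕ) (p : ℚ_[q][X]) (y : PadicAlgCl q ⊗[ℚ_[q]] V) (hy : y ∈ eg (bs Z) ζ r) :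
    bs (aeval Z p) y = (aeval (ζ ^ r) p : PadicAlgCl q) • y := by
  induction p using Polynomial.induction_on' with
  | add p p' h h' =>
    rw [map_add, map_add, add_smul, ← h, ← h']
    show (LinearMap.baseChange (PadicAlgCl q) (aeval Z p + aeval Z p')) y = _
    rw [LinearMap.baseChange_add]
    rfl
  | monomial j c =>
    rw [aeval_monomial, aeval_monomial]
    have h1 : (algebraMap ℚ_[q] (Module.End ℚ_[q] V) c * Z ^ j) = c • Z ^ j := by
      rw [Algebra.algebraMap_eq_smul_one, smul_mul_assoc, one_mul]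
    rw [h1]
    show (LinearMap.baseChange (PadicAlgCl q) (c • Z ^ j)) y = _
    rw [LinearMap.baseChange_smul, LinearMap.smul_apply]
    have h2 := LDE_pow_mem (bs Z : Module.End (PadicAlgCl q) (PadicAlgCl q ⊗[ℚ_[q]] V)) ζ r y hy j
    rw [DTU_bs_pow] at h2
    rw [h2, mul_smul, algebraMap_smul]

theorem DTU (hLDE : AQ.LDE_stmt) : DTU_stmt := by
  intro q l n _ _ V _ _ Z g hfree hZ hcomm P w x hdet hx ζ hζ r hr0 hrl
  obtain ⟨n1, v, b, M, hb, hgv, rfl⟩ := hdet
  clear hfree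
  have hl : l.Prime := Fact.out
  have hl0 : (l : PadicAlgCl q) ≠ 0 := Nat.cast_ne_zero.2 hl.ne_zero
  have hlpos : 0 < l := hl.pos
  have hfin := (hLDE ℚ_[q] (PadicAlgCl q) V l n1 hl Z v b hb hZ ζ hζ).1 r hr0 hrl
  set Z' : Module.End (PadicAlgCl q) (PadicAlgCl q ⊗[ℚ_[q]] V) := bs Z with hZ'def
  intro g' hg'
  have hZ' : ∑ i ∈ Finset.range l, Z' ^ i = 0 := by
    have h1 : ∑ i ∈ Finset.range l, Z' ^ i =
        LinearMap.baseChange (PadicAlgCl q) (∑ i ∈ Finset.range l, Z ^ i) := by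
      rw [Finset.sum_congr rfl fun i _ => DTU_bs_pow Z i]
      exact (map_sum (LinearMap.baseChangeHom ℚ_[q] (PadicAlgCl q) V V) _ _).symm
    rw [h1, hZ, LinearMap.baseChange_zero]
  set pr := LDE_pr l Z' ζ r with hpr
  have hmem : ∀ y, pr y ∈ eg Z' ζ r := fun y => LDE_pr_mem l hlpos Z' hZ' ζ hζ r y
  -- an operator commuting with `Z` commutes with the projection
  have hprc : ∀ A : Module.End ℚ_[q] V, A * Z = Z * A → ∀ y, pr (bs A y) = bs A (pr y) := by
    intro A hA y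
    have hc : Commute (bs A : Module.End (PadicAlgCl q) (PadicAlgCl q ⊗[ℚ_[q]] V)) Z' := by
      show (LinearMap.baseChange (PadicAlgCl q) A) ∘ₗ (LinearMap.baseChange (PadicAlgCl q) Z) =
        (LinearMap.baseChange (PadicAlgCl q) Z) ∘ₗ (LinearMap.baseChange (PadicAlgCl q) A)
      rw [← LinearMap.baseChange_comp, ← LinearMap.baseChange_comp]
      exact congrArg _ hA
    have h6 : pr * (bs A : Module.End (PadicAlgCl q) (PadicAlgCl q ⊗[ℚ_[q]] V)) = (bs A : Module.End (PadicAlgCl q) (PadicAlgCl q ⊗[ℚ_[q]] V)) * pr := by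
      rw [hpr]
      unfold LDE_pr
      rw [smul_mul_assoc, mul_smul_comm, Finset.sum_mul, Finset.mul_sum]
      congr 1
      refine Finset.sum_congr rfl fun a _ => ?_
      rw [smul_mul_assoc, mul_smul_comm]
      congr 1
      exact ((hc.pow_right a).eq).symm
    exact congrArg (fun f : Module.End (PadicAlgCl q) (PadicAlgCl q ⊗[ℚ_[q]] V) => f y) h6
  -- the vectors
  let u : Fin n1 → eg Z' ζ r := fun k => ⟨pr ((1 : PadicAlgCl q) ⊗ₜ[ℚ_[q]] v k), hmem _⟩
  have hspan : ⊤ ≤ Submodule.span (PadicAlgCl q) (Set.range u) := by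
    rintro ⟨y, hy⟩ -
    have h2 : ∀ y : PadicAlgCl q ⊗[ℚ_[q]] V, (⟨pr y, hmem y⟩ : eg Z' ζ r) ∈ Submodule.span (PadicAlgCl q) (Set.range u) := by
      intro y
      have h3 := (b.baseChange (PadicAlgCl q)).sum_repr y
      have h4 : (⟨pr y, hmem y⟩ : eg Z' ζ r) = ∑ i, (b.baseChange (PadicAlgCl q)).repr y i • (⟨pr ((b.baseChange (PadicAlgCl q)) i), hmem _⟩ : eg Z' ζ r) := by
        apply Subtype.ext
        rw [Submodule.coe_sum]
        show pr y = _
        conv_lhs => rw [← h3, map_sum]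
        refine Finset.sum_congr rfl fun i _ => ?_
        rw [map_smul]
        rfl
      rw [h4]
      refine Submodule.sum_mem _ fun ij _ => ?_
      refine Submodule.smul_mem _ _ ?_
      obtain ⟨i, j⟩ := ij
      have h5 : (⟨pr ((b.baseChange (PadicAlgCl q)) (i, j)), hmem _⟩ : eg Z' ζ r) = ((ζ ^ r) ^ (j : ℕ)) • u i := by
        apply Subtype.ext
        show pr ((b.baseChange (PadicAlgCl q)) (i, j)) = ((ζ ^ r) ^ (j : ℕ)) • pr ((1 : PadicAlgCl q) ⊗ₜ[ℚ_[q]] v i)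
        rw [Module.Basis.baseChange_apply, hb, ← LDE_pow_mem Z' ζ r _ (hmem _) (j : ℕ), hZ'def, DTU_bs_pow,
          ← hprc (Z ^ (j : ℕ)) (by rw [← pow_succ, ← pow_succ'])]
        rfl
      rw [h5]
      exact Submodule.smul_mem _ _ (Submodule.subset_span ⟨i, rfl⟩)
    have h1 : pr y = y := by
      rw [hpr, LDE_pr_eig l hl0 Z' ζ hζ r r hrl hrl y hy, if_pos rfl]
    have h7 := h2 y
    have h8 : (⟨pr y, hmem y⟩ : eg Z' ζ r) = ⟨y, hy⟩ := Subtype.ext h1
    rwa [h8] at h7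
  have hcard : Fintype.card (Fin n1) = Module.finrank (PadicAlgCl q) (eg Z' ζ r) := by
    rw [Fintype.card_fin]
    exact hfin.symm
  let B : Module.Basis (Fin n1) (PadicAlgCl q) (eg Z' ζ r) := basisOfTopLeSpanOfCardEqFinrank u hspan hcard
  have hB : ∀ k, B k = u k := by
    intro k
    simp [B]
  -- the matrix of `g'`
  have hgu : ∀ k, g' (u k) = ∑ k', (aeval (ζ ^ r) (M k' k) : PadicAlgCl q) • u k' := by
    intro k
    apply Subtype.ext
    rw [hg', Submodule.coe_sum]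
    show bs g (pr ((1 : PadicAlgCl q) ⊗ₜ[ℚ_[q]] v k)) = _
    rw [← hprc g hcomm]
    show pr (LinearMap.baseChange (PadicAlgCl q) g ((1 : PadicAlgCl q) ⊗ₜ[ℚ_[q]] v k)) = _
    rw [LinearMap.baseChange_tmul, hgv, TensorProduct.tmul_sum, map_sum]
    refine Finset.sum_congr rfl fun k' _ => ?_
    have h1 : ((1 : PadicAlgCl q) ⊗ₜ[ℚ_[q]] (aeval Z (M k' k)) (v k')) = bs (aeval Z (M k' k)) ((1 : PadicAlgCl q) ⊗ₜ[ℚ_[q]] v k') := by
      show _ = LinearMap.baseChange (PadicAlgCl q) (aeval Z (M k' k)) ((1 : PadicAlgCl q) ⊗ₜ[ℚ_[q]] v k')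
      rw [LinearMap.baseChange_tmul]
    have h2 : aeval Z (M k' k) * Z = Z * aeval Z (M k' k) := by
      have h3 : aeval Z (M k' k) * aeval Z (X : ℚ_[q][X]) = aeval Z (X : ℚ_[q][X]) * aeval Z (M k' k) := by
        rw [← map_mul, ← map_mul, mul_comm]
      rwa [aeval_X] at h3
    rw [h1, hprc _ h2, DTU_aeval Z ζ r _ _ (hmem _)]
    rfl
  have hmat : LinearMap.toMatrix B B g' = M.map (fun p => (aeval (ζ ^ r) p : PadicAlgCl q)) := by
    ext i k
    rw [LinearMap.toMatrix_apply, hB, hgu, map_sum, Finsupp.finsetSum_apply, Matrix.map_apply]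
    rw [Finset.sum_eq_single i]
    · rw [map_smul, ← hB, B.repr_self, Finsupp.smul_apply, Finsupp.single_eq_same, smul_eq_mul, mul_one]
    · intro k' _ hk'
      rw [map_smul, ← hB, B.repr_self, Finsupp.smul_apply, Finsupp.single_eq_of_ne (Ne.symm hk'), smul_zero]
    · intro h
      exact absurd (Finset.mem_univ _) h
  -- the evaluation
  have hprim : IsPrimitiveRoot (ζ ^ r) l := by
    refine hζ.pow_of_coprime r ?_
    exact (Nat.coprime_comm.1 ((Nat.Prime.coprime_iff_not_dvd hl).2 fun h => absurd (Nat.le_of_dvd hr0 h) (by omega)))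
  have hroot : (cyclotomic l ℚ_[q]).eval₂ (algebraMap ℚ_[q] (PadicAlgCl q)) (ζ ^ r) = 0 := by
    rw [eval₂_eq_eval_map, map_cyclotomic]
    exact hprim.isRoot_cyclotomic hlpos
  let ev : Fl q l →+* PadicAlgCl q := AdjoinRoot.lift (algebraMap ℚ_[q] (PadicAlgCl q)) (ζ ^ r) hroot
  have hev : ∀ p : ℚ_[q][X], ev (fl p) = aeval (ζ ^ r) p := by
    intro p
    show AdjoinRoot.lift (algebraMap ℚ_[q] (PadicAlgCl q)) (ζ ^ r) hroot (AdjoinRoot.mk _ p) = _
    rw [AdjoinRoot.lift_mk]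
    rfl
  have hdet : LinearMap.det g' = ev (M.map fl).det := by
    rw [← LinearMap.det_toMatrix B, hmat, RingHom.map_det]
    congr 1
  rw [hdet, ← map_pow, hx, map_pow, hev]

end

end Pool.Agent.TI
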