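import Pool.Agent.helper63.TI.SpecA

/-! Row ta:NRA (MP_3703a7_ag): calculus of operators close to the identity on a lattice. -/

set_option autoImplicit false

namespace Pool.Agent.TI

open Polynomial NumberField Pool.Agent.GJ Pool.Agent.TK Pool.Agent.TQ Pool.Agent.TFQ Pool.Agent.TD Pool.Agent.AQ
open Pool.Agent.FJ (VT Om chiO IsFrobO rf rs)
open scoped TensorProduct

noncomputable section

theorem NRA_smul {q : ℕ} [Fact q.Prime] {V : Type} [AddCommGroup V] [Module ℚ_[q] V] {T : AddSubgroup V} (hT : Lat q T)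
    (c : ℚ_[q]) (hc : ‖c‖ ≤ 1) (t : V) (ht : t ∈ T) : c • t ∈ T := by
  obtain ⟨N, b, hb⟩ := hT
  rw [hb] at ht ⊢
  intro j
  rw [map_smul, Finsupp.smul_apply, smul_eq_mul, norm_mul]
  exact mul_le_one₀ hc (norm_nonneg _) (ht j)

theorem NRA_pow {q : ℕ} [Fact q.Prime] {V : Type} [AddCommGroup V] [Module ℚ_[q] V] {T : AddSubgroup V} (hT : Lat q T)
    (n : ℕ) (t : V) (ht : t ∈ T) : (q : ℚ_[q]) ^ n • t ∈ T := by
  refine NRA_smul hT _ ?_ t ht
  rw [norm_pow, Padic.norm_p]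
  refine pow_le_one₀ (by positivity) ?_
  exact inv_le_one_of_one_le₀ (by exact_mod_cast (Fact.out : q.Prime).one_lt.le)

theorem NRA_bd {q : ℕ} [Fact q.Prime] {V : Type} [AddCommGroup V] [Module ℚ_[q] V] {T : AddSubgroup V} (hT : Lat q T)
    (Y : V →ₗ[ℚ_[q]] V) : ∃ c : ℕ, ∀ n, c ≤ n → ∀ t ∈ T, (q : ℚ_[q]) ^ n • Y t ∈ T := by
  have hT' := hT
  obtain ⟨N, b, hb⟩ := hT
  have hq1 : (1 : ℝ) < q := by exact_mod_cast (Fact.out : q.Prime).one_lt
  -- a bound for the coefficients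
  obtain ⟨C, hC⟩ : ∃ C : ℝ, ∀ k j, ‖b.repr (Y (b k)) j‖ ≤ C := by
    refine ⟨∑ k, ∑ j, ‖b.repr (Y (b k)) j‖, ?_⟩
    intro k j
    refine (Finset.single_le_sum (f := fun j => ‖b.repr (Y (b k)) j‖) (fun _ _ => norm_nonneg _) (Finset.mem_univ j)).trans ?_
    exact Finset.single_le_sum (f := fun k => ∑ j, ‖b.repr (Y (b k)) j‖)
      (fun _ _ => Finset.sum_nonneg fun _ _ => norm_nonneg _) (Finset.mem_univ k)
  obtain ⟨c, hc⟩ := pow_unbounded_of_one_lt (max C 1) hq1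
  refine ⟨c, ?_⟩
  intro n hn t ht
  rw [hb] at ht ⊢
  intro j
  have hqn : ‖(q : ℚ_[q]) ^ n‖ = ((q : ℝ) ^ n)⁻¹ := by
    rw [norm_pow, Padic.norm_p, inv_pow]
  have e1 : Y t = ∑ k, b.repr t k • Y (b k) := by
    conv_lhs => rw [← b.sum_repr t]
    rw [map_sum]
    simp only [map_smul]
  have e2 : b.repr (Y t) j = ∑ k, b.repr t k * b.repr (Y (b k)) j := by
    rw [e1, map_sum, Finsupp.finsetSum_apply]
    simp only [map_smul, Finsupp.smul_apply, smul_eq_mul]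
  have hCn : C ≤ (q : ℝ) ^ n := by
    refine (le_max_left C 1).trans (hc.le.trans ?_)
    exact pow_le_pow_right₀ hq1.le hn
  have hnn : (0 : ℝ) ≤ (q : ℝ) ^ n := by positivity
  have e3 : ‖b.repr (Y t) j‖ ≤ (q : ℝ) ^ n := by
    rw [e2]
    refine IsUltrametricDist.norm_sum_le_of_forall_le_of_nonneg hnn ?_
    intro k _
    rw [norm_mul]
    refine (mul_le_mul_of_nonneg_right (ht k) (norm_nonneg _)).trans ?_
    rw [one_mul]
    exact (hC k j).trans hCn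
  rw [map_smul, Finsupp.smul_apply, smul_eq_mul, norm_mul, hqn]
  have hpos : (0 : ℝ) < (q : ℝ) ^ n := by positivity
  rw [inv_mul_le_iff₀ hpos, mul_one]
  exact e3

theorem NRA : NRA_stmt := by
  intro q _ V _ _ T hT
  refine ⟨?_, ?_, ?_, ?_⟩
  · intro H Y N m m' hm h t ht
    obtain ⟨t', ht', e⟩ := h t ht
    refine ⟨(q : ℚ_[q]) ^ (m - m') • t', NRA_pow hT _ _ ht', ?_⟩
    rw [e, smul_smul, ← pow_add]
    congr 3
    omega
  · intro Y
    obtain ⟨c, hc⟩ := NRA_bd hT Y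
    refine ⟨c, ?_⟩
    intro N hN H m h t ht
    obtain ⟨t', ht', e⟩ := h t ht
    rw [e]
    exact T.add_mem (T.add_mem ht (hc N hN t ht)) (NRA_pow hT _ _ ht')
  · intro Y Y' m
    obtain ⟨c₁, hc₁⟩ := NRA_bd hT Y
    obtain ⟨c₂, hc₂⟩ := NRA_bd hT Y'
    set c : ℕ := c₁ + c₂ with hcd
    refine ⟨m + 2 * c, ?_⟩
    intro N hN H H' h h' t ht
    obtain ⟨t1, ht1, e1⟩ := h' t ht
    obtain ⟨t2, ht2, e2⟩ := h t ht
    have hY't : (q : ℚ_[q]) ^ c • Y' t ∈ T := hc₂ c (by omega) t ht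
    obtain ⟨t3, ht3, e3⟩ := h _ hY't
    obtain ⟨t4, ht4, e4⟩ := h t1 ht1
    have hs : (q : ℚ_[q]) ^ c • Y ((q : ℚ_[q]) ^ c • Y' t) ∈ T := hc₁ c (by omega) _ hY't
    have hHt1 : H t1 ∈ T := by
      rw [e4]
      exact T.add_mem (T.add_mem ht1 (hc₁ N (by omega) t1 ht1)) (NRA_pow hT _ _ ht4)
    refine ⟨t2 + (q : ℚ_[q]) ^ (N - 2 * c - m) • ((q : ℚ_[q]) ^ c • Y ((q : ℚ_[q]) ^ c • Y' t)) +
      (q : ℚ_[q]) ^ (N - c) • t3 + H t1, ?_, ?_⟩
    · exact T.add_mem (T.add_mem (T.add_mem ht2 (NRA_pow hT _ _ hs)) (NRA_pow hT _ _ ht3)) hHt1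
    · have e5 : (q : ℚ_[q]) ^ N • H (Y' t) = (q : ℚ_[q]) ^ (N - c) • H ((q : ℚ_[q]) ^ c • Y' t) := by
        rw [map_smul, smul_smul, ← pow_add]
        congr 2
        omega
      have e6 : (q : ℚ_[q]) ^ (N - c) • ((q : ℚ_[q]) ^ c • Y' t) = (q : ℚ_[q]) ^ N • Y' t := by
        rw [smul_smul, ← pow_add]
        congr 2
        omega
      have e7 : (q : ℚ_[q]) ^ (N - c) • ((q : ℚ_[q]) ^ N • Y ((q : ℚ_[q]) ^ c • Y' t)) =
          (q : ℚ_[q]) ^ (N + m) • ((q : ℚ_[q]) ^ (N - 2 * c - m) • ((q : ℚ_[q]) ^ c • Y ((q : ℚ_[q]) ^ c • Y' t))) := by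
        rw [smul_smul, smul_smul, smul_smul, ← pow_add, ← pow_add, ← pow_add]
        congr 2
        omega
      have e8 : (q : ℚ_[q]) ^ (N - c) • ((q : ℚ_[q]) ^ (N + m) • t3) = (q : ℚ_[q]) ^ (N + m) • ((q : ℚ_[q]) ^ (N - c) • t3) := by
        rw [smul_comm]
      change H (H' t) = _
      rw [e1, map_add, map_add, map_smul, map_smul, e2, e5, e3, smul_add, smul_add, e6, e7, e8, LinearMap.add_apply,
        smul_add, smul_add, smul_add, smul_add]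
      abel
  · intro H Y P P' N m hP' hP hPP h t ht
    obtain ⟨t1, ht1, e1⟩ := h (P t) (hP t ht)
    refine ⟨P' t1, hP' t1 ht1, ?_⟩
    have e2 : P' (P t) = t := by
      have := LinearMap.congr_fun hPP t
      simpa using this
    change P' (H (P t)) = t + (q : ℚ_[q]) ^ N • P' (Y (P t)) + _
    rw [e1, map_add, map_add, map_smul, map_smul, e2]

end

end Pool.Agent.TI
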